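import Pool.Agent.Helper2.EC_C.Goals

/-!
# Packet XT: the transformation of `X`
-/

set_option autoImplicit false

open Complex Filter Topology

namespace ECC.PkXT

open EC237

/-- Lipschitz' formula. -/
theorem lip (x y : ℝ) (hy : 0 < y) :
    ∑' n : ℤ, 1 / (((x : ℂ) + y * I) + n) ^ 3 =
      4 * Real.pi ^ 3 * I *
        ∑' v : ℕ, ((v : ℂ) + 1) ^ 2 * cexp (2 * Real.pi * I * ((x : ℂ) + y * I) * (v + 1)) := by
  have hz : 0 < ((x : ℂ) + y * I).im := by simp [hy]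
  have h := EisensteinSeries.qExpansion_identity_pnat (k := 2) (by norm_num)
    ⟨(x : ℂ) + y * I, hz⟩
  have e : (2 + 1 : ℕ) = 3 := rfl
  rw [e] at h
  change ∑' n : ℤ, 1 / (((x : ℂ) + y * I) + n) ^ 3 = _ at h
  rw [h, tsum_pnat_eq_tsum_succ (f := fun v : ℕ => (v : ℂ) ^ 2 *
    cexp (2 * Real.pi * I * ((x : ℂ) + y * I)) ^ v)]
  congr 1
  · have h3 : I ^ 3 = -I := by rw [pow_succ, I_sq]; ring
    simp only [Nat.factorial]
    push_cast
    rw [mul_pow, mul_pow, h3]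
    ring
  · refine tsum_congr fun v => ?_
    rw [← Complex.exp_nat_mul]
    push_cast
    congr 2
    ring

/-- The terms of the double series. -/
noncomputable def f (t : ℝ) (p : ℤ × ℤ) : ℂ := (chi p.1 : ℂ) / ((p.1 : ℂ) + 3 * t * p.2 * I) ^ 3

theorem abs_chi_le (m : ℤ) : |chi m| ≤ 1 := by
  unfold chi
  split_ifs <;> simp

theorem chi_neg (m : ℤ) : chi (-m) = -chi m := by
  unfold chi
  have h : (-m) % 3 = 0 ∧ m % 3 = 0 ∨ (-m) % 3 = 1 ∧ m % 3 = 2 ∨ (-m) % 3 = 2 ∧ m % 3 = 1 := by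
    omega
  rcases h with ⟨h1, h2⟩ | ⟨h1, h2⟩ | ⟨h1, h2⟩ <;> simp [h1, h2]

theorem chi_zero : chi 0 = 0 := by simp [chi]

theorem f_neg (t : ℝ) (m n : ℤ) : f t (-m, -n) = f t (m, n) := by
  unfold f
  simp only
  rw [chi_neg]
  push_cast
  have : ((-(m : ℂ)) + 3 * t * (-(n : ℂ)) * I) = -((m : ℂ) + 3 * t * n * I) := by ring
  rw [this, Odd.neg_pow (by decide), neg_div_neg_eq]

theorem summable_f (t : ℝ) (ht : 0 < t) : Summable (f t) := by
  have hz : 0 < ((3 * t : ℝ) * I : ℂ).im := by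
    simp only [mul_im, ofReal_re, I_im, ofReal_im, I_re]
    linarith
  have h := (summable_prod_eisSummand (k := 3) le_rfl ⟨((3 * t : ℝ) * I : ℂ), hz⟩).norm
  have h2 := (Equiv.prodComm ℤ ℤ).summable_iff.2 h
  refine Summable.of_norm_bounded h2 fun p => ?_
  simp only [Function.comp_apply, Equiv.prodComm_apply, Prod.fst_swap, Prod.snd_swap,
    EisensteinSeries.eisSummand, Matrix.cons_val_zero, Matrix.cons_val_one, f]
  have e : ((p.2 : ℂ) * (((3 * t : ℝ) : ℂ) * I) + (p.1 : ℂ)) = (p.1 : ℂ) + 3 * t * p.2 * I := by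
    push_cast; ring
  change ‖_‖ ≤ ‖((p.2 : ℂ) * (((3 * t : ℝ) : ℂ) * I) + (p.1 : ℂ)) ^ (-((3 : ℕ) : ℤ))‖
  rw [e, zpow_neg, zpow_natCast, norm_div, div_eq_mul_inv, norm_inv]
  refine mul_le_of_le_one_left (by positivity) ?_
  rw [Complex.norm_real, Real.norm_eq_abs]
  exact abs_chi_le _

/-- Summability of real double series. -/
theorem summable_base (q : ℝ) (h0 : 0 ≤ q) (h1 : q < 1) :
    Summable (fun p : ℕ × ℕ => ((p.1 : ℝ) + 1) ^ 2 * ((p.2 : ℝ) + 1) ^ 2 *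
      q ^ ((p.1 + 1) * (p.2 + 1))) := by
  have hs : Summable (fun n : ℕ => ((n : ℝ) + 1) ^ 2 * q ^ n) := by
    have a2 := summable_pow_mul_geometric_of_norm_lt_one 2 (r := q) (by rwa [Real.norm_of_nonneg h0])
    have a1 := summable_pow_mul_geometric_of_norm_lt_one 1 (r := q) (by rwa [Real.norm_of_nonneg h0])
    have a0 := summable_pow_mul_geometric_of_norm_lt_one 0 (r := q) (by rwa [Real.norm_of_nonneg h0])
    refine ((a2.add (a1.mul_left 2)).add a0).congr fun n => ?_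
    ring
  have hm := hs.mul_of_nonneg hs (fun n => by positivity) (fun n => by positivity)
  refine Summable.of_nonneg_of_le (fun p => by positivity) (fun p => ?_) hm
  have hq : q ^ ((p.1 + 1) * (p.2 + 1)) ≤ q ^ (p.1 + p.2) := by
    refine pow_le_pow_of_le_one h0 h1.le ?_
    nlinarith [Nat.zero_le (p.1 * p.2)]
  calc _ ≤ ((p.1 : ℝ) + 1) ^ 2 * ((p.2 : ℝ) + 1) ^ 2 * q ^ (p.1 + p.2) :=
        mul_le_mul_of_nonneg_left hq (by positivity)
    _ = _ := by rw [pow_add]; ring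

theorem summable_X (q : ℝ) (h0 : 0 ≤ q) (h1 : q < 1) :
    Summable (fun p : ℕ × ℕ => chi ((p.1 + 1 : ℕ) : ℤ) * (((p.2 + 1 : ℕ) : ℝ)) ^ 2 *
      q ^ ((p.1 + 1) * (p.2 + 1))) := by
  refine Summable.of_norm_bounded (summable_base q h0 h1) fun p => ?_
  rw [norm_mul, norm_mul, Real.norm_eq_abs, Real.norm_of_nonneg (by positivity),
    Real.norm_of_nonneg (by positivity)]
  refine mul_le_mul_of_nonneg_right ?_ (by positivity)
  push_cast
  refine mul_le_mul_of_nonneg_right ?_ (by positivity)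
  refine (abs_chi_le _).trans ?_
  nlinarith [(Nat.cast_nonneg p.1 : (0 : ℝ) ≤ p.1)]

theorem summable_B (q : ℝ) (h0 : 0 ≤ q) (h1 : q < 1) :
    Summable (fun p : ℕ × ℕ => chi ((p.1 + 1 : ℕ) : ℤ) * (((p.1 + 1 : ℕ) : ℝ)) ^ 2 *
      q ^ ((p.1 + 1) * (p.2 + 1))) := by
  refine Summable.of_norm_bounded (summable_base q h0 h1) fun p => ?_
  rw [norm_mul, norm_mul, Real.norm_eq_abs, Real.norm_of_nonneg (by positivity),
    Real.norm_of_nonneg (by positivity)]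
  refine mul_le_mul_of_nonneg_right ?_ (by positivity)
  push_cast
  have h2 := abs_chi_le ((p.1 : ℤ) + 1)
  have h3 : (1 : ℝ) ≤ ((p.2 : ℝ) + 1) ^ 2 := by nlinarith [(Nat.cast_nonneg p.2 : (0 : ℝ) ≤ p.2)]
  calc |chi ((p.1 : ℤ) + 1)| * ((p.1 : ℝ) + 1) ^ 2 ≤ 1 * ((p.1 : ℝ) + 1) ^ 2 :=
        mul_le_mul_of_nonneg_right h2 (by positivity)
    _ = ((p.1 : ℝ) + 1) ^ 2 * 1 := by ring
    _ ≤ _ := mul_le_mul_of_nonneg_left h3 (by positivity)

/-- Rows of the double series: sum over `n`, for `m ≥ 1`. -/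
theorem row (t : ℝ) (ht : 0 < t) (m : ℕ) :
    ∑' n : ℤ, f t (((m + 1 : ℕ) : ℤ), n) = (4 * Real.pi ^ 3 / (27 * t ^ 3) : ℂ) *
      ∑' v : ℕ, ((chi ((m + 1 : ℕ) : ℤ) * (((v + 1 : ℕ) : ℝ)) ^ 2 *
        (Real.exp (-(2 * Real.pi / (3 * t)))) ^ ((m + 1) * (v + 1)) : ℝ) : ℂ) := by
  have htc : (t : ℂ) ≠ 0 := by exact_mod_cast ht.ne'
  set y : ℝ := ((m + 1 : ℕ) : ℝ) / (3 * t) with hy
  have hy0 : 0 < y := by rw [hy]; positivity
  have h3 : I ^ 3 = -I := by rw [pow_succ, I_sq]; ring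
  have key : ∀ n : ℤ, f t (((m + 1 : ℕ) : ℤ), -n) = (chi ((m + 1 : ℕ) : ℤ) : ℂ) *
      (1 / (27 * t ^ 3 * I)) * (1 / (((0 : ℝ) : ℂ) + y * I + n) ^ 3) := by
    intro n
    unfold f
    simp only
    have e1 : ((((m + 1 : ℕ) : ℤ) : ℂ) + 3 * t * ((-n : ℤ) : ℂ) * I) =
        -(3 * t * I) * (((0 : ℝ) : ℂ) + y * I + n) := by
      rw [hy]
      push_cast
      have : -(3 * (t : ℂ) * I) * (0 + ((m : ℂ) + 1) / (3 * t) * I + n) =
          -(I ^ 2) * ((m : ℂ) + 1) - 3 * t * n * I := by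
        field_simp
        ring
      rw [this, I_sq]
      ring
    have e2 : (-(3 * (t : ℂ) * I)) ^ 3 = 27 * t ^ 3 * I := by
      rw [neg_pow, mul_pow, mul_pow, h3]; ring
    rw [e1, mul_pow, e2]
    simp only [div_eq_mul_inv, mul_inv, one_mul]
    ring
  rw [← (Equiv.neg ℤ).tsum_eq (fun n : ℤ => f t (((m + 1 : ℕ) : ℤ), n))]
  simp only [Equiv.neg_apply]
  simp_rw [key]
  rw [tsum_mul_left, lip 0 y hy0, ← tsum_mul_left, ← tsum_mul_left, ← tsum_mul_left]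
  refine tsum_congr fun v => ?_
  have e3 : cexp (2 * Real.pi * I * (((0 : ℝ) : ℂ) + y * I) * (v + 1)) =
      (((Real.exp (-(2 * Real.pi / (3 * t)))) ^ ((m + 1) * (v + 1)) : ℝ) : ℂ) := by
    rw [← Real.exp_nat_mul, Complex.ofReal_exp]
    congr 1
    rw [hy]
    push_cast
    have : 2 * (Real.pi : ℂ) * I * (0 + ((m : ℂ) + 1) / (3 * t) * I) * (v + 1) =
        I ^ 2 * (((m : ℂ) + 1) * (v + 1) * (2 * Real.pi / (3 * t))) := by
      field_simp
      ring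
    rw [this, I_sq]
    ring
  rw [e3]
  push_cast
  field_simp

/-- The primitive cube root of unity. -/
theorem omega_eq : cexp (2 * Real.pi * I / 3) = -1 / 2 + (Real.sqrt 3 : ℂ) / 2 * I := by
  have e : (2 * Real.pi * I / 3 : ℂ) = ((Real.pi - Real.pi / 3 : ℝ) : ℂ) * I := by
    push_cast; ring
  rw [e, Complex.exp_mul_I, ← Complex.ofReal_cos, ← Complex.ofReal_sin, Real.cos_pi_sub,
    Real.sin_pi_sub, Real.cos_pi_div_three, Real.sin_pi_div_three]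
  push_cast
  ring

theorem omega_diff (v : ℕ) : cexp (2 * Real.pi * I / 3) ^ v - (cexp (2 * Real.pi * I / 3) ^ 2) ^ v =
    I * (Real.sqrt 3 : ℂ) * (chi (v : ℤ) : ℂ) := by
  set w := cexp (2 * Real.pi * I / 3) with hw
  have hs : ((Real.sqrt 3 : ℝ) : ℂ) ^ 2 = 3 := by
    rw [← Complex.ofReal_pow, Real.sq_sqrt (by norm_num)]; norm_num
  have hw2 : w ^ 2 = -1 / 2 - (Real.sqrt 3 : ℂ) / 2 * I := by
    rw [hw, omega_eq]
    have : (-1 / 2 + (Real.sqrt 3 : ℂ) / 2 * I) ^ 2 =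
      1 / 4 - (Real.sqrt 3 : ℂ) / 2 * I + (Real.sqrt 3 : ℂ) ^ 2 * I ^ 2 / 4 := by ring
    rw [this, hs, I_sq]
    ring
  have hw1 : w = -1 / 2 + (Real.sqrt 3 : ℂ) / 2 * I := by rw [hw, omega_eq]
  have hw3 : w ^ 3 = 1 := by
    rw [pow_succ, hw2, hw1]
    have : (-1 / 2 - (Real.sqrt 3 : ℂ) / 2 * I) * (-1 / 2 + (Real.sqrt 3 : ℂ) / 2 * I) =
      1 / 4 - (Real.sqrt 3 : ℂ) ^ 2 * I ^ 2 / 4 := by ring
    rw [this, hs, I_sq]
    norm_num
  obtain ⟨k, r, hr, hv⟩ : ∃ k r : ℕ, r < 3 ∧ v = 3 * k + r :=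
    ⟨v / 3, v % 3, Nat.mod_lt _ (by norm_num), by omega⟩
  have hwk : ∀ a : ℕ, w ^ (3 * a) = 1 := fun a => by rw [pow_mul, hw3, one_pow]
  rw [← pow_mul, hv, pow_add, hwk, one_mul,
    show 2 * (3 * k + r) = 3 * (2 * k) + 2 * r by ring, pow_add, hwk, one_mul]
  interval_cases r
  · have : ((3 * k + 0 : ℕ) : ℤ) % 3 = 0 := by omega
    simp [chi]
  · have h1 : ((3 * k + 1 : ℕ) : ℤ) % 3 = 1 := by omega
    have hc : chi ((3 * k + 1 : ℕ) : ℤ) = 1 := by unfold chi; rw [if_pos h1]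
    rw [hc, pow_one, mul_one, hw2, hw1]
    push_cast
    ring
  · have h1 : ((3 * k + 2 : ℕ) : ℤ) % 3 = 2 := by omega
    have hc : chi ((3 * k + 2 : ℕ) : ℤ) = -1 := by
      unfold chi; rw [if_neg (by omega), if_pos h1]
    rw [hc, show 2 * 2 = 3 + 1 by norm_num, pow_add, hw3, pow_one, one_mul, hw2, hw1]
    push_cast
    ring

/-- Sum over a residue class. -/
theorem cls (h : ℤ → ℂ) (r : ℤ) (hr0 : 0 ≤ r) (hr : r < 3) :
    ∑' m : ℤ, (if m % 3 = r then h m else 0) = ∑' k : ℤ, h (3 * k + r) := by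
  have hinj : Function.Injective (fun k : ℤ => 3 * k + r) := fun a b hab => by
    simp only at hab; omega
  rw [← hinj.tsum_eq (f := fun m : ℤ => if m % 3 = r then h m else 0)]
  · refine tsum_congr fun k => ?_
    have : (3 * k + r) % 3 = r := by omega
    simp [this]
  · intro m hm
    rw [Function.mem_support] at hm
    have : m % 3 = r := by
      by_contra hne
      exact hm (by simp [hne])
    exact ⟨m / 3, by simp only; omega⟩

/-- Columns of the double series: sum over `m`, for `n ≥ 1`. -/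
theorem col (t : ℝ) (ht : 0 < t) (n : ℕ) :
    ∑' m : ℤ, f t (m, ((n + 1 : ℕ) : ℤ)) = (-(4 * Real.pi ^ 3 * Real.sqrt 3 / 27) : ℂ) *
      ∑' v : ℕ, ((chi ((v + 1 : ℕ) : ℤ) * (((v + 1 : ℕ) : ℝ)) ^ 2 *
        (Real.exp (-(2 * Real.pi * t))) ^ ((v + 1) * (n + 1)) : ℝ) : ℂ) := by
  set h : ℤ → ℂ := fun m => 1 / ((m : ℂ) + 3 * t * ((n + 1 : ℕ) : ℂ) * I) ^ 3 with hh
  set y : ℝ := t * ((n + 1 : ℕ) : ℝ) with hy
  have hy0 : 0 < y := by rw [hy]; positivity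
  have hS : ∀ r : ℤ, 0 ≤ r → r < 3 → Summable (fun m : ℤ => if m % 3 = r then h m else 0) := by
    intro r _ _
    have hz : 0 < ((3 * t : ℝ) * I : ℂ).im := by
      simp only [mul_im, ofReal_re, I_im, ofReal_im, I_re]
      linarith
    have h1 := (summable_prod_eisSummand (k := 3) le_rfl ⟨((3 * t : ℝ) * I : ℂ), hz⟩).norm
    have h2 := h1.prod_factor (((n + 1 : ℕ) : ℤ))
    refine Summable.of_norm_bounded h2 fun m => ?_
    have e : ((((n + 1 : ℕ) : ℤ) : ℂ) * (((3 * t : ℝ) : ℂ) * I) + (m : ℂ)) =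
        (m : ℂ) + 3 * t * ((n + 1 : ℕ) : ℂ) * I := by
      push_cast; ring
    have e2 : ‖EisensteinSeries.eisSummand 3 ![(((n + 1 : ℕ) : ℤ)), m]
        ⟨((3 * t : ℝ) * I : ℂ), hz⟩‖ = ‖h m‖ := by
      rw [hh]
      simp only [EisensteinSeries.eisSummand, Matrix.cons_val_zero, Matrix.cons_val_one]
      change ‖((((n + 1 : ℕ) : ℤ) : ℂ) * (((3 * t : ℝ) : ℂ) * I) + (m : ℂ)) ^
        (-((3 : ℕ) : ℤ))‖ = _
      rw [e, zpow_neg, zpow_natCast, one_div]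
    refine le_trans ?_ e2.ge
    split_ifs
    · exact le_rfl
    · simp
  have hf : ∀ m : ℤ, f t (m, ((n + 1 : ℕ) : ℤ)) =
      (if m % 3 = 1 then h m else 0) - (if m % 3 = 2 then h m else 0) := by
    intro m
    unfold f chi
    simp only [hh]
    have hm : m % 3 = 0 ∨ m % 3 = 1 ∨ m % 3 = 2 := by omega
    rcases hm with h0 | h0 | h0 <;> simp [h0, neg_div]
  simp_rw [hf]
  rw [(hS 1 (by norm_num) (by norm_num)).tsum_sub (hS 2 (by norm_num) (by norm_num)),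
    cls h 1 (by norm_num) (by norm_num), cls h 2 (by norm_num) (by norm_num)]
  have hr : ∀ r : ℤ, ∑' k : ℤ, h (3 * k + r) = 4 * Real.pi ^ 3 * I / 27 *
      ∑' v : ℕ, ((v : ℂ) + 1) ^ 2 *
        cexp (2 * Real.pi * I * ((((r : ℝ) / 3 : ℝ) : ℂ) + y * I) * (v + 1)) := by
    intro r
    have h1 : ∀ k : ℤ, h (3 * k + r) =
        1 / 27 * (1 / (((((r : ℝ) / 3 : ℝ) : ℂ) + y * I) + k) ^ 3) := by
      intro k
      rw [hh, hy]
      simp only
      have e : (((3 * k + r : ℤ) : ℂ) + 3 * t * ((n + 1 : ℕ) : ℂ) * I) =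
          3 * (((((r : ℝ) / 3 : ℝ) : ℂ) + ((t * ((n + 1 : ℕ) : ℝ) : ℝ) : ℂ) * I) + k) := by
        push_cast; ring
      rw [e, mul_pow, one_div_mul_one_div_rev, mul_comm]
      norm_num
    simp_rw [h1]
    rw [tsum_mul_left, lip _ _ hy0]
    ring
  rw [hr 1, hr 2, ← mul_sub]
  have hSv : ∀ r : ℤ, Summable (fun v : ℕ => ((v : ℂ) + 1) ^ 2 *
      cexp (2 * Real.pi * I * ((((r : ℝ) / 3 : ℝ) : ℂ) + y * I) * (v + 1))) := by
    intro r
    have hq0 : 0 ≤ Real.exp (-(2 * Real.pi * y)) := (Real.exp_pos _).le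
    have hq1 : Real.exp (-(2 * Real.pi * y)) < 1 := by
      rw [Real.exp_lt_one_iff]
      have := Real.pi_pos
      have : 0 < 2 * Real.pi * y := by positivity
      linarith
    have hb := (summable_base _ hq0 hq1).prod_factor 0
    refine Summable.of_norm_bounded hb fun v => ?_
    rw [norm_mul, Complex.norm_exp]
    have e1 : (2 * Real.pi * I * ((((r : ℝ) / 3 : ℝ) : ℂ) + y * I) * ((v : ℂ) + 1)).re =
        ((v + 1 : ℕ) : ℝ) * (-(2 * Real.pi * y)) := by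
      have : (2 * Real.pi * I * ((((r : ℝ) / 3 : ℝ) : ℂ) + y * I) * ((v : ℂ) + 1)) =
          ((((v : ℝ) + 1) * (2 * Real.pi * y * 1) : ℝ) : ℂ) * I ^ 2 +
            ((2 * Real.pi * (r / 3) * (v + 1) : ℝ) : ℂ) * I := by
        push_cast; ring
      rw [this, I_sq]
      simp
    rw [e1, Real.exp_nat_mul]
    have e2 : ‖((v : ℂ) + 1) ^ 2‖ = ((v : ℝ) + 1) ^ 2 := by
      rw [norm_pow]
      congr 1
      have : ((v : ℂ) + 1) = (((v : ℝ) + 1 : ℝ) : ℂ) := by push_cast; rfl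
      rw [this, Complex.norm_real, Real.norm_of_nonneg (by positivity)]
    rw [e2]
    simp
  rw [← (hSv 1).tsum_sub (hSv 2), ← tsum_mul_left, ← tsum_mul_left]
  refine tsum_congr fun v => ?_
  have e3 : ∀ r : ℤ, cexp (2 * Real.pi * I * ((((r : ℝ) / 3 : ℝ) : ℂ) + y * I) * (v + 1)) =
      (cexp (2 * Real.pi * I / 3 * r)) ^ (v + 1) *
        (((Real.exp (-(2 * Real.pi * t))) ^ ((v + 1) * (n + 1)) : ℝ) : ℂ) := by
    intro r
    rw [← Real.exp_nat_mul, Complex.ofReal_exp, ← Complex.exp_nat_mul, ← Complex.exp_add]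
    congr 1
    rw [hy]
    have : 2 * (Real.pi : ℂ) * I * ((((r : ℝ) / 3 : ℝ) : ℂ) +
        ((t * ((n + 1 : ℕ) : ℝ) : ℝ) : ℂ) * I) * ((v : ℂ) + 1) =
        ((v : ℂ) + 1) * (2 * Real.pi * I / 3 * r) +
          I ^ 2 * (((v : ℂ) + 1) * (n + 1) * (2 * Real.pi * t)) := by
      push_cast; ring
    rw [this, I_sq]
    push_cast
    ring
  have e4 : cexp (2 * Real.pi * I / 3 * ((1 : ℤ) : ℂ)) = cexp (2 * Real.pi * I / 3) := by simp
  have e5 : cexp (2 * Real.pi * I / 3 * ((2 : ℤ) : ℂ)) = cexp (2 * Real.pi * I / 3) ^ 2 := by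
    rw [← Complex.exp_nat_mul]
    congr 1
    push_cast
    ring
  rw [e3 1, e3 2, e4, e5]
  have e6 := omega_diff (v + 1)
  set a := cexp (2 * Real.pi * I / 3) ^ (v + 1)
  set b := (cexp (2 * Real.pi * I / 3) ^ 2) ^ (v + 1)
  have e7 : 4 * (Real.pi : ℂ) ^ 3 * I / 27 * (((v : ℂ) + 1) ^ 2 * (a *
      (((Real.exp (-(2 * Real.pi * t))) ^ ((v + 1) * (n + 1)) : ℝ) : ℂ)) -
      ((v : ℂ) + 1) ^ 2 * (b * (((Real.exp (-(2 * Real.pi * t))) ^ ((v + 1) * (n + 1)) : ℝ) : ℂ))) =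
      4 * (Real.pi : ℂ) ^ 3 * I / 27 * ((v : ℂ) + 1) ^ 2 *
        (((Real.exp (-(2 * Real.pi * t))) ^ ((v + 1) * (n + 1)) : ℝ) : ℂ) * (a - b) := by ring
  rw [e7, e6]
  have e8 : 4 * (Real.pi : ℂ) ^ 3 * I / 27 * ((v : ℂ) + 1) ^ 2 *
        (((Real.exp (-(2 * Real.pi * t))) ^ ((v + 1) * (n + 1)) : ℝ) : ℂ) *
        (I * (Real.sqrt 3 : ℂ) * (chi ((v + 1 : ℕ) : ℤ) : ℂ)) =
      I ^ 2 * (4 * (Real.pi : ℂ) ^ 3 * Real.sqrt 3 / 27 * ((v : ℂ) + 1) ^ 2 *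
        (((Real.exp (-(2 * Real.pi * t))) ^ ((v + 1) * (n + 1)) : ℝ) : ℂ) *
          (chi ((v + 1 : ℕ) : ℤ) : ℂ)) := by ring
  rw [e8, I_sq]
  push_cast
  ring

theorem bern3 : (Polynomial.bernoulli 3).eval (1 / 3) = 1 / 27 := by
  simp_rw [Polynomial.bernoulli, Finset.sum_range_succ, Polynomial.eval_add,
    Polynomial.eval_monomial]
  rw [Finset.sum_range_zero, Polynomial.eval_zero, zero_add, _root_.bernoulli_one]
  rw [bernoulli_eq_bernoulli'_of_ne_one zero_ne_one, bernoulli'_zero,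
    bernoulli_eq_bernoulli'_of_ne_one (by decide : 2 ≠ 1), bernoulli'_two,
    bernoulli_eq_bernoulli'_of_ne_one (by decide : 3 ≠ 1), bernoulli'_three]
  norm_num

theorem sin_chi (n : ℕ) : Real.sin (2 * Real.pi * n * (1 / 3)) =
    Real.sqrt 3 / 2 * chi (n : ℤ) := by
  have h := omega_diff n
  have h1 : cexp (2 * Real.pi * I / 3) ^ n = cexp ((2 * Real.pi * n * (1 / 3) : ℝ) * I) := by
    rw [← Complex.exp_nat_mul]
    congr 1
    push_cast; ring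
  have h2 : (cexp (2 * Real.pi * I / 3) ^ 2) ^ n =
      cexp (-((2 * Real.pi * n * (1 / 3) : ℝ) * I)) := by
    have h3 : cexp (2 * Real.pi * I / 3) ^ 2 = cexp (-(2 * Real.pi * I / 3)) := by
      have : cexp (2 * Real.pi * I / 3) ^ 2 = cexp (2 * (2 * Real.pi * I / 3)) := by
        rw [← Complex.exp_nat_mul]; norm_num
      rw [this, show 2 * (2 * Real.pi * I / 3) = 2 * Real.pi * I + -(2 * Real.pi * I / 3) by ring,
        Complex.exp_add, Complex.exp_two_pi_mul_I, one_mul]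
    rw [h3, ← Complex.exp_nat_mul]
    congr 1
    push_cast; ring
  rw [h1, h2, ← neg_mul, Complex.exp_mul_I, Complex.exp_mul_I, Complex.cos_neg,
    Complex.sin_neg] at h
  have h4 : ((Real.sin (2 * Real.pi * n * (1 / 3)) : ℝ) : ℂ) =
      ((Real.sqrt 3 / 2 * chi (n : ℤ) : ℝ) : ℂ) := by
    rw [Complex.ofReal_sin]
    have h5 : 2 * I * Complex.sin ((2 * Real.pi * n * (1 / 3) : ℝ) : ℂ) =
        2 * I * ((Real.sqrt 3 / 2 * chi (n : ℤ) : ℝ) : ℂ) := by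
      have h6 : (2 * I * Complex.sin ((2 * Real.pi * n * (1 / 3) : ℝ) : ℂ)) =
        I * (Real.sqrt 3 : ℂ) * (chi (n : ℤ) : ℂ) := by
        rw [← h]; ring
      rw [h6]
      push_cast; ring
    exact mul_left_cancel₀ (by simp [I_ne_zero]) h5
  exact_mod_cast h4

theorem hasSum_L : HasSum (fun n : ℕ => chi ((n : ℕ) : ℤ) / (n : ℝ) ^ 3)
    (4 * Real.pi ^ 3 / (81 * Real.sqrt 3)) := by
  have h := hasSum_one_div_nat_pow_mul_sin one_ne_zero
    (x := 1 / 3) (by constructor <;> norm_num)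
  have h2 := h.mul_left (2 / Real.sqrt 3)
  have h3 : Real.sqrt 3 ≠ 0 := by positivity
  refine (congr_arg₂ HasSum ?_ ?_).mp h2
  · ext n
    rw [sin_chi]
    field_simp
    rfl
  · have : (1 / 3 : ℝ) = (algebraMap ℚ ℝ) (1 / 3 : ℚ) := by simp
    rw [this, mul_pow, Polynomial.eval_map, Polynomial.eval₂_at_apply,
      (by decide : 2 * 1 + 1 = 3), bern3]
    simp only [Nat.factorial, eq_ratCast]
    push_cast
    field_simp
    norm_num

/-- The column `n = 0`. -/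
theorem col0 (t : ℝ) : ∑' m : ℤ, f t (m, 0) =
    ((2 * (4 * Real.pi ^ 3 / (81 * Real.sqrt 3)) : ℝ) : ℂ) := by
  have hf : ∀ m : ℤ, f t (m, 0) = ((chi m / (m : ℝ) ^ 3 : ℝ) : ℂ) := by
    intro m
    unfold f
    push_cast
    simp
  simp_rw [hf]
  rw [← Complex.ofReal_tsum]
  congr 1
  have hS : Summable (fun m : ℤ => chi m / (m : ℝ) ^ 3) := by
    refine Summable.of_nat_of_neg (f := fun m : ℤ => chi m / (m : ℝ) ^ 3) ?_ ?_
    · simpa using hasSum_L.summable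
    · refine hasSum_L.summable.congr fun n => ?_
      rw [chi_neg]
      push_cast
      rw [Odd.neg_pow (by decide), neg_div_neg_eq]
  have hev : Function.Even (fun m : ℤ => chi m / (m : ℝ) ^ 3) := by
    intro m
    simp only
    rw [chi_neg]
    push_cast
    rw [Odd.neg_pow (by decide), neg_div_neg_eq]
  rw [tsum_int_eq_zero_add_two_mul_tsum_pnat hev hS]
  have h1 : ∑' n : ℕ+, chi (((n : ℕ) : ℤ)) / ((((n : ℕ) : ℤ)) : ℝ) ^ 3 =
      4 * Real.pi ^ 3 / (81 * Real.sqrt 3) := by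
    have h2 := tsum_zero_pnat_eq_tsum_nat (f := fun n : ℕ => chi (n : ℤ) / (n : ℝ) ^ 3)
      hasSum_L.summable
    rw [hasSum_L.tsum_eq] at h2
    rw [← h2]
    simp [chi_zero]
  rw [← h1]
  simp [chi_zero]

theorem mainC (t : ℝ) (ht : 0 < t) :
    2 * ((4 * Real.pi ^ 3 / (27 * t ^ 3)) * XS (Real.exp (-(2 * Real.pi / (3 * t))))) =
      2 * (4 * Real.pi ^ 3 / (81 * Real.sqrt 3)) +
        2 * (-(4 * Real.pi ^ 3 * Real.sqrt 3 / 27) *
          LS (fun M _ => chi (M : ℤ) * (M : ℝ) ^ 2) (Real.exp (-(2 * Real.pi * t)))) := by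
  have hpi := Real.pi_pos
  have hS := summable_f t ht
  set q' := Real.exp (-(2 * Real.pi / (3 * t))) with hq'
  set q := Real.exp (-(2 * Real.pi * t)) with hq
  have hq'0 : 0 ≤ q' := (Real.exp_pos _).le
  have hq0 : 0 ≤ q := (Real.exp_pos _).le
  have hq'1 : q' < 1 := by
    rw [hq', Real.exp_lt_one_iff]
    have : 0 < 2 * Real.pi / (3 * t) := by positivity
    linarith
  have hq1 : q < 1 := by
    rw [hq, Real.exp_lt_one_iff]
    have : 0 < 2 * Real.pi * t := by positivity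
    linarith
  have A : ∑' p, f t p = 2 * ((4 * Real.pi ^ 3 / (27 * t ^ 3) : ℂ) * ((XS q' : ℝ) : ℂ)) := by
    rw [hS.tsum_prod]
    have hev : Function.Even (fun m : ℤ => ∑' n : ℤ, f t (m, n)) := by
      intro m
      simp only
      rw [← (Equiv.neg ℤ).tsum_eq (fun n : ℤ => f t (-m, n))]
      exact tsum_congr fun n => f_neg t m n
    rw [tsum_int_eq_zero_add_two_mul_tsum_pnat hev hS.prod]
    have h0 : ∑' n : ℤ, f t (0, n) = 0 := by
      have : ∀ n : ℤ, f t (0, n) = 0 := fun n => by simp [f, chi_zero]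
      simp [this]
    have h1 := tsum_pnat_eq_tsum_succ (f := fun m : ℕ => ∑' n : ℤ, f t ((m : ℤ), n))
    rw [h0, zero_add, h1]
    simp_rw [row t ht]
    rw [tsum_mul_left, two_nsmul, ← two_mul]
    congr 2
    have hsum := (summable_X q' hq'0 hq'1)
    unfold XS LS
    rw [Complex.ofReal_tsum]
    have hc : Summable (fun p : ℕ × ℕ => ((chi ((p.1 + 1 : ℕ) : ℤ) * (((p.2 + 1 : ℕ) : ℝ)) ^ 2 *
      q' ^ ((p.1 + 1) * (p.2 + 1)) : ℝ) : ℂ)) := by exact_mod_cast hsum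
    rw [hc.tsum_prod]
  have B : ∑' p, f t p = ((2 * (4 * Real.pi ^ 3 / (81 * Real.sqrt 3)) : ℝ) : ℂ) +
      2 * ((-(4 * Real.pi ^ 3 * Real.sqrt 3 / 27) : ℂ) *
        ((LS (fun M _ => chi (M : ℤ) * (M : ℝ) ^ 2) q : ℝ) : ℂ)) := by
    have hS' : Summable (fun p : ℤ × ℤ => f t (p.2, p.1)) :=
      (Equiv.prodComm ℤ ℤ).summable_iff.2 hS
    have e0 : ∑' p, f t p = ∑' p : ℤ × ℤ, f t (p.2, p.1) :=
      ((Equiv.prodComm ℤ ℤ).tsum_eq (f t)).symm
    rw [e0, hS'.tsum_prod]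
    have hev : Function.Even (fun n : ℤ => ∑' m : ℤ, f t (m, n)) := by
      intro n
      simp only
      rw [← (Equiv.neg ℤ).tsum_eq (fun m : ℤ => f t (m, -n))]
      exact tsum_congr fun m => f_neg t m n
    have hp := hS'.prod
    simp only at hp
    rw [tsum_int_eq_zero_add_two_mul_tsum_pnat hev hp, col0]
    congr 1
    have h1 := tsum_pnat_eq_tsum_succ (f := fun n : ℕ => ∑' m : ℤ, f t (m, (n : ℤ)))
    rw [h1]
    simp_rw [col t ht]
    rw [tsum_mul_left, two_nsmul, ← two_mul]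
    congr 2
    have hsum := (summable_B q hq0 hq1)
    unfold LS
    rw [Complex.ofReal_tsum]
    have hc : Summable (fun p : ℕ × ℕ => ((chi ((p.1 + 1 : ℕ) : ℤ) * (((p.1 + 1 : ℕ) : ℝ)) ^ 2 *
      q ^ ((p.1 + 1) * (p.2 + 1)) : ℝ) : ℂ)) := by exact_mod_cast hsum
    have hc' : Summable (fun p : ℕ × ℕ => ((chi ((p.2 + 1 : ℕ) : ℤ) *
      (((p.2 + 1 : ℕ) : ℝ)) ^ 2 * q ^ ((p.2 + 1) * (p.1 + 1)) : ℝ) : ℂ)) :=
      (Equiv.prodComm ℕ ℕ).summable_iff.2 hc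
    rw [← (Equiv.prodComm ℕ ℕ).tsum_eq]
    exact hc'.tsum_prod.symm
  rw [A] at B
  exact_mod_cast B

/-- Packet XT. -/
theorem xt : G_XT := by
  intro t ht
  have h := mainC t ht
  have h3 : Real.sqrt 3 ^ 2 = 3 := Real.sq_sqrt (by norm_num)
  have h30 : Real.sqrt 3 ≠ 0 := by positivity
  have hpi : Real.pi ≠ 0 := Real.pi_ne_zero
  unfold bS
  set X := XS (Real.exp (-(2 * Real.pi / (3 * t))))
  set Y := LS (fun M _ => chi (M : ℤ) * (M : ℝ) ^ 2) (Real.exp (-(2 * Real.pi * t)))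
  have ht0 : t ≠ 0 := ht.ne'
  have h4 : 4 * Real.pi ^ 3 / (27 * t ^ 3) * X =
      4 * Real.pi ^ 3 / (81 * Real.sqrt 3) - (4 * Real.pi ^ 3 * Real.sqrt 3 / 27) * Y := by
    linarith
  have h5 : X = t ^ 3 * (1 / (3 * Real.sqrt 3) - Real.sqrt 3 * Y) := by
    field_simp at h4 ⊢
    linear_combination h4 / 27
  rw [h5]
  field_simp
  rw [h3]
  ring

end ECC.PkXT
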